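import Pool.Agent.Helper24.HW.Stmts

set_option autoImplicit false

namespace Pool.Agent.Helper57.HW

open Equiv Equiv.Perm Pool.Agent.Helper24.HW Pool.Agent.Helper24.HWPub Pool.Agent.Helper98.Gn

theorem flg0 {C : Type} (M : LM C) (f : M.D × Bool) : M.flg 0 f = (f.1, !f.2) := rfl

theorem flg2 {C : Type} (M : LM C) (f : M.D × Bool) : M.flg 2 f = (M.α f.1, !f.2) := rfl

theorem flg1 {C : Type} (M : LM C) (f : M.D × Bool) : M.ℓ (M.flg 1 f).1 = M.ℓ f.1 := by
  obtain ⟨x, b⟩ := f
  cases b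
  · change M.ℓ (M.σ.symm x) = M.ℓ x
    have h := M.hℓ (M.σ.symm x)
    rw [Equiv.apply_symm_apply] at h
    exact h.symm
  · change M.ℓ (M.σ x) = M.ℓ x
    exact M.hℓ x

theorem fin (hF : ST_FLG) {C : Type} [Fintype C] (M : LM C) (m : ℕ) (hc : M.Conn)
    (hn : Nonempty M.D) (hA : ∀ A B, A ≠ B → M.Adj A B) (hm : ∀ A, M.pt A ≤ m) (S : Surf)
    (a : Fin 3 → Perm (M.D × Bool)) (h0 : a 0 = M.flg 0) (h1 : a 1 = M.flg 1)
    (h2 : ∀ f, (a 2 f).1 = M.α f.1) (hon : On a S) :
    ∃ (Φ : Type) (_ : Finite Φ) (a : Fin 3 → Perm Φ) (c : Φ → ℕ),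
    On a S ∧ IsEmpire a m c ∧ ∀ q, Colourable a c q → Fintype.card C ≤ q := by
  obtain ⟨-, -, -, h4, -⟩ := hF C M hc hn
  let cl : C → ℕ := fun A => (Fintype.equivFin C A : ℕ)
  have hcl : Function.Injective cl := fun A B h => (Fintype.equivFin C).injective (Fin.ext h)
  refine ⟨M.D × Bool, inferInstance, a, fun f => cl (M.ℓ f.1), hon, ⟨?_, ?_, ?_⟩, ?_⟩
  · intro f
    simp only [h0, flg0]
  · intro f
    simp only [h1, flg1]
  · intro A
    have hs : ({a 0, a 1} : Set (Perm (M.D × Bool))) = {M.flg 0, M.flg 1} := by rw [h0, h1]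
    rw [hs]
    by_cases hA' : ∃ B, cl B = A
    · obtain ⟨B, rfl⟩ := hA'
      rw [h4 cl hcl B]
      exact hm B
    · have he : {O : MulAction.orbitRel.Quotient (Subgroup.closure {M.flg 0, M.flg 1})
          (M.D × Bool) | ∃ f, cl (M.ℓ f.1) = A ∧ Quotient.mk _ f = O} = ∅ := by
        ext O
        simp only [Set.mem_ofPred_eq, Set.mem_empty_iff_false, iff_false]
        rintro ⟨f, hf, -⟩
        exact hA' ⟨_, hf⟩
      rw [he, Set.ncard_empty]
      exact Nat.zero_le _
  · rintro q ⟨κ, hκ⟩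
    have hinj : Function.Injective (fun A : C => κ (cl A)) := by
      intro A B hAB
      by_contra hne
      obtain ⟨x, hx1, hx2⟩ := hA A B hne
      have h5 := hκ (x, true)
      simp only [h2, hx1, hx2] at h5
      exact h5 (fun h => hne (hcl h)) hAB
    have := Fintype.card_le_of_injective _ hinj
    rwa [Fintype.card_fin] at this

theorem ori (hF : ST_FLG) {C : Type} (M : LM C) (hc : M.Conn) (hn : Nonempty M.D) :
    Orientable M.flg :=
  ⟨fun f => f.2, fun i f => (hF C M hc hn).2.2.1 i f⟩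

theorem SURF (hL : ST_LOP) (hF : ST_FLG) (hT : ST_TW) (hN : ST_NON) : ST_SURF := by
  intro C _ M m hc hn hA hm S hS
  rcases hS with ⟨hO, he⟩ | ⟨hO, he⟩
  · refine fin hF M m hc hn hA hm S M.flg rfl rfl (fun f => rfl) ⟨(hF C M hc hn).1, ?_, ?_⟩
    · rw [(hF C M hc hn).2.1, he]
    · exact ⟨fun _ => hO, fun _ => ori hF M hc hn⟩
  · obtain ⟨M', hchi, ⟨e1, e2, e3, e4⟩, x, y, hx, hy, hxy, hxy'⟩ := hL C M hn
    have hc' := e3 hc
    have hn' := e4 hn
    obtain ⟨f1, f2, f3, f4, f5⟩ := hF C M' hc' hn'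
    obtain ⟨t1, t2, t3, t4, t5⟩ := hT _ M'.flg (x, false) f1 (f5 x hx)
    have hor := ori hF M' hc' hn'
    have horb : M'.flg 2 (x, false) ∈
        MulAction.orbit (Subgroup.closure {M'.flg 0, M'.flg 1}) (x, false) := by
      rw [← f5 x hx]
      exact ⟨⟨M'.flg 1, Subgroup.subset_closure (by simp)⟩, rfl⟩
    have hA' : ∀ A B, A ≠ B → M'.Adj A B := fun A B h => e2 A B (hA A B h)
    have hm' : ∀ A, M'.pt A ≤ m := fun A => by rw [e1]; exact hm A
    have hfst : ∀ f, (tw M'.flg (x, false) 2 f).1 = M'.α f.1 := by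
      intro f
      rw [t5 f]
      split_ifs
      · rfl
      · rfl
    have ht1 : tw M'.flg (x, false) 2 (x, false) = M'.flg 2 (M'.flg 0 (x, false)) := by
      rw [t5, if_pos (Or.inl rfl)]
    rcases he with he | he
    · refine fin hF M' m hc' hn' hA' hm' S (tw M'.flg (x, false)) t3 t4 hfst ⟨t1, ?_, ?_⟩
      · rw [t2, f2, hchi, he]
      · refine ⟨fun h => ?_, fun h => absurd h hO⟩
        exact absurd h (hN _ M'.flg _ (x, false) (f1.inv 0) f1.comm hor horb t3 t4 ht1)
    · have hyx : M'.α x ≠ y := fun h => hxy' (by rw [← h, M'.hα])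
      have g12 : tw M'.flg (x, false) 1 (y, false) = tw M'.flg (x, false) 2 (y, false) := by
        rw [t4, t5, if_neg]
        · exact f5 y hy
        · rw [flg0, flg2]
          simp only [flg0]
          rintro (h | h | h | h)
          · exact hxy (congrArg Prod.fst h).symm
          · exact hxy (congrArg Prod.fst h).symm
          · exact hyx (congrArg Prod.fst h).symm
          · exact hyx (congrArg Prod.fst h).symm
      obtain ⟨s1, s2, s3, s4, s5⟩ := hT _ (tw M'.flg (x, false)) (y, false) t1 g12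
      have hy2 : tw M'.flg (x, false) 2 (y, false) = (M'.α y, true) := by
        rw [← g12, t4, f5 y hy]
        rfl
      refine fin hF M' m hc' hn' hA' hm' S (tw (tw M'.flg (x, false)) (y, false))
        (s3.trans t3) (s4.trans t4) ?_ ⟨s1, ?_, ?_⟩
      · intro f
        rw [s5 f]
        split_ifs
        · rw [hfst, t3]
          rfl
        · exact hfst f
      · rw [s2, t2, f2, hchi, he]
        ring
      · refine ⟨fun h => ?_, fun h => absurd h hO⟩
        refine absurd h (hN _ M'.flg _ (x, false) (f1.inv 0) f1.comm hor horb (s3.trans t3)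
          (s4.trans t4) ?_)
        rw [s5, if_neg, ht1]
        rw [hy2, t3]
        simp only [flg0]
        rintro (h | h | h | h)
        · exact hxy (congrArg Prod.fst h)
        · exact hxy (congrArg Prod.fst h)
        · exact hxy' (congrArg Prod.fst h)
        · exact hxy' (congrArg Prod.fst h)

end Pool.Agent.Helper57.HW
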